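import Pool.Agent.H2.NL.Basic
import Pool.Agent.H64.CC.Ind

/-!
# The sign conjecture implies nilpotence
-/

set_option autoImplicit false

open Matrix Pool.Agent.H2.NL Pool.Agent.H64.CC

namespace Pool.Agent.H33.NL

theorem pf_NIL : T_NIL := by
  intro K _ _ W h n X
  constructor
  · intro hC f hf hnt
    have hpow : ∀ k : ℕ, f ^ k ∈ W.cyc X X 0 := by
      intro k
      induction k with
      | zero =>
        rw [pow_zero]
        exact h.calculus.one_mem X
      | succ k ih =>
        have h1 := h.calculus.comp_mem X X X 0 0 f hf (f ^ k) ih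
        rw [add_zero] at h1
        rw [pow_succ]
        exact h1
    have hE : ∀ k : ℕ, W.even X * f ^ k ∈ W.cyc X X 0 := by
      intro k
      have h1 := h.calculus.comp_mem X X X 0 0 (f ^ k) (hpow k) (W.even X) hC
      rw [add_zero] at h1
      exact h1
    have htr : ∀ k : ℕ, (f ^ (k + 1)).trace = 0 := by
      intro k
      have h1 : W.str (f ^ k * f) = 0 := hnt (f ^ k) (hpow k)
      have h2 : W.str (W.even X * f ^ k * f) = 0 := hnt (W.even X * f ^ k) (hE k)
      rw [← pow_succ] at h1
      rw [mul_assoc, ← pow_succ] at h2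
      have h3 : (f ^ (k + 1)).trace = 2 * W.str (W.even X * f ^ (k + 1)) - W.str (f ^ (k + 1)) := by
        unfold Weil.str
        rw [Matrix.trace, Finset.mul_sum, ← Finset.sum_sub_distrib]
        refine Finset.sum_congr rfl fun a _ => ?_
        rw [Matrix.diag_apply]
        have h4 : (W.even X * f ^ (k + 1)) a a = (if Even (W.deg X a) then 1 else 0) *
            (f ^ (k + 1)) a a := by
          unfold Weil.even
          rw [Matrix.diagonal_mul]
        rw [h4]
        by_cases he : Even (W.deg X a)
        · rw [if_pos he, he.neg_one_pow]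
          ring
        · rw [if_neg he, (Nat.not_even_iff_odd.1 he).neg_one_pow]
          ring
      rw [h3, h1, h2]
      ring
    obtain ⟨N, hN⟩ := nil_of_trace f htr
    exact ⟨N, hN⟩
  · intro hN e he hee hnt
    obtain ⟨N, h1⟩ := hN e he hnt
    have h2 : e ^ N = 0 := h1
    have h3 : e ^ (N + 1) = e := by
      have h4 : IsIdempotentElem e := hee
      exact h4.pow_succ_eq N
    rw [← h3, pow_succ, h2, zero_mul]

end Pool.Agent.H33.NL
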